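import Pool.Agent.R804.Arrow.Count

/-! Standard cycle form and the arrow pattern `(12; 1 → 3)`. -/

namespace Pool.Agent.R804.Arrow

open Equiv

variable {n : ℕ}

/-- The word of a list of cycles: a cycle `(m, t)` is written as `m` followed by `t`. -/
def wordOf (bs : List (Fin n × List (Fin n))) : List (Fin n) :=
  bs.flatMap fun c => c.1 :: c.2

/-- `bs` is the standard cycle form of `σ`: the cycles `(m t₁ … t_r)` in `bs` are disjoint,
contain every element (fixed points included), their product is `σ`, each begins with its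
largest element, and they are ordered by increasing largest element. -/
def IsStdForm (σ : Perm (Fin n)) (bs : List (Fin n × List (Fin n))) : Prop :=
  (wordOf bs).Nodup ∧ (∀ x, x ∈ wordOf bs) ∧
  σ = (bs.map fun c => List.formPerm (c.1 :: c.2)).prod ∧
  (∀ c ∈ bs, ∀ x ∈ c.2, x < c.1) ∧
  bs.Pairwise (fun c d => c.1 < d.1)

/-- `θ(σ) = π`. -/
def IsTheta (σ π : Perm (Fin n)) : Prop :=
  ∃ bs, IsStdForm σ bs ∧ wordOf bs = List.ofFn π

/-- `π` contains the arrow pattern `(12; 1 → 3)`. -/
def HasArrow (π : Perm (Fin n)) : Prop :=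
  ∃ σ, IsTheta σ π ∧ ∃ x₁ x₂ x₃ : Fin n,
    x₁ < x₂ ∧ x₂ < x₃ ∧ π.symm x₁ < π.symm x₂ ∧ σ x₁ = x₃

/-- existence of block decompositions -/
lemma exists_blocks (w : List (Fin n)) : ∀ (h : Fin n) (t : List (Fin n)),
    (∀ x ∈ t, x < h) → (h :: t ++ w).Nodup →
    ∃ bs : List (Fin n × List (Fin n)), wordOf bs = h :: t ++ w ∧
      (∀ c ∈ bs, ∀ x ∈ c.2, x < c.1) ∧ bs.Pairwise (fun c d => c.1 < d.1) ∧
      ∀ c ∈ bs, h ≤ c.1 := by
  induction w with
  | nil =>
    intro h t ht _
    exact ⟨[(h, t)], by simp [wordOf], by simpa using ht, by simp, by simp⟩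
  | cons x w ih =>
    intro h t ht hnd
    have hx : x ≠ h := by
      intro e
      rw [e] at hnd
      simp at hnd
    rcases lt_or_gt_of_ne hx with hlt | hgt
    · obtain ⟨bs, h1, h2, h3, h4⟩ := ih h (t ++ [x]) (by
        intro y hy
        rcases List.mem_append.1 hy with hy | hy
        · exact ht y hy
        · rw [List.mem_singleton.1 hy]; exact hlt) (by simpa using hnd)
      exact ⟨bs, by simpa using h1, h2, h3, h4⟩
    · obtain ⟨bs, h1, h2, h3, h4⟩ := ih x [] (by simp) (by
        have : (x :: w).Sublist (h :: t ++ x :: w) := List.sublist_append_right _ _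
        simpa using hnd.sublist this)
      refine ⟨(h, t) :: bs, ?_, ?_, ?_, ?_⟩
      · have : wordOf ((h, t) :: bs) = h :: t ++ wordOf bs := by simp [wordOf]
        rw [this, h1]
        simp
      · intro c hc
        rcases List.mem_cons.1 hc with rfl | hc
        · exact ht
        · exact h2 c hc
      · exact List.pairwise_cons.2 ⟨fun d hd => lt_of_lt_of_le hgt (h4 d hd), h3⟩
      · intro c hc
        rcases List.mem_cons.1 hc with rfl | hc
        · exact le_rfl
        · exact (hgt.le).trans (h4 c hc)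

lemma wordOf_nodup (π : Perm (Fin n)) : (List.ofFn π).Nodup :=
  List.nodup_ofFn.2 π.injective

lemma mem_word (π : Perm (Fin n)) (x : Fin n) : x ∈ List.ofFn π := by
  rw [List.mem_ofFn]
  exact ⟨π.symm x, by simp⟩

lemma exists_theta (π : Perm (Fin n)) : ∃ σ, IsTheta σ π := by
  have key : ∃ bs : List (Fin n × List (Fin n)), wordOf bs = List.ofFn π ∧
      (∀ c ∈ bs, ∀ x ∈ c.2, x < c.1) ∧ bs.Pairwise (fun c d => c.1 < d.1) := by
    rcases hw : List.ofFn π with _ | ⟨h, w⟩
    · exact ⟨[], rfl, by simp, by simp⟩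
    · obtain ⟨bs, h1, h2, h3, _⟩ := exists_blocks w h [] (by simp) (by
        have := wordOf_nodup π
        rw [hw] at this
        simpa using this)
      exact ⟨bs, by simpa using h1, h2, h3⟩
  obtain ⟨bs, h1, h2, h3⟩ := key
  exact ⟨_, bs, ⟨h1 ▸ wordOf_nodup π, fun x => h1 ▸ mem_word π x, rfl, h2, h3⟩, h1⟩

lemma blocks_unique : ∀ (bs bs' : List (Fin n × List (Fin n))),
    (∀ c ∈ bs, ∀ x ∈ c.2, x < c.1) → bs.Pairwise (fun c d => c.1 < d.1) →
    (∀ c ∈ bs', ∀ x ∈ c.2, x < c.1) → bs'.Pairwise (fun c d => c.1 < d.1) →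
    wordOf bs = wordOf bs' → bs = bs' := by
  intro bs
  induction bs with
  | nil =>
    intro bs' _ _ _ _ h
    rcases bs' with _ | ⟨c, bs'⟩
    · rfl
    · simp [wordOf] at h
  | cons c bs ih =>
    intro bs' h1 h2 h3 h4 h
    rcases bs' with _ | ⟨c', bs'⟩
    · simp [wordOf] at h
    · have e : c.1 :: (c.2 ++ wordOf bs) = c'.1 :: (c'.2 ++ wordOf bs') := by
        simpa [wordOf] using h
      rw [List.cons.injEq] at e
      obtain ⟨e1, e2⟩ := e
      have key : ∀ (a : Fin n) (s : List (Fin n)) (cs : List (Fin n × List (Fin n)))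
          (m : Fin n) (r : List (Fin n)), (∀ d ∈ cs, m < d.1) → wordOf cs = (a :: s) ++ r →
          a < m → False := by
        intro a s cs m r hcs hw ha
        rcases cs with _ | ⟨d, cs⟩
        · simp [wordOf] at hw
        · have : d.1 = a := by
            have := hw
            simp only [wordOf, List.flatMap_cons, List.cons_append, List.cons.injEq] at this
            exact this.1
          have h5 := hcs d (by simp)
          rw [this] at h5
          exact absurd h5 (not_lt.2 ha.le)
      have e3 : c.2 = c'.2 ∧ wordOf bs = wordOf bs' := by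
        rcases List.append_eq_append_iff.1 e2 with ⟨s, hs1, hs2⟩ | ⟨s, hs1, hs2⟩
        · rcases s with _ | ⟨a, s⟩
          · exact ⟨by simpa using hs1.symm, by simpa using hs2⟩
          · exfalso
            refine key a s bs c.1 _ (List.pairwise_cons.1 h2).1 hs2 ?_
            rw [e1]
            exact h3 c' (by simp) a (by rw [hs1]; simp)
        · rcases s with _ | ⟨a, s⟩
          · exact ⟨by simpa using hs1, by simpa using hs2.symm⟩
          · exfalso
            refine key a s bs' c'.1 _ (List.pairwise_cons.1 h4).1 hs2 ?_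
            rw [← e1]
            exact h1 c (by simp) a (by rw [hs1]; simp)
      have e4 := ih bs' (fun d hd => h1 d (by simp [hd])) (List.pairwise_cons.1 h2).2
        (fun d hd => h3 d (by simp [hd])) (List.pairwise_cons.1 h4).2 e3.2
      rw [e4, Prod.ext e1 e3.1]

/-- every permutation `π` is `θ(σ)` for exactly one `σ` -/
theorem existsUnique_theta (π : Perm (Fin n)) : ∃! σ, IsTheta σ π := by
  obtain ⟨σ, hσ⟩ := exists_theta π
  refine ⟨σ, hσ, ?_⟩
  rintro σ' ⟨bs', ⟨_, _, p3', p4', p5'⟩, h'⟩
  obtain ⟨bs, ⟨_, _, p3, p4, p5⟩, h⟩ := hσ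
  have := blocks_unique bs bs' p4 p5 p4' p5' (h.trans h'.symm)
  rw [p3, p3', this]

lemma prod_apply (bs : List (Fin n × List (Fin n))) : (wordOf bs).Nodup →
    ∀ c ∈ bs, ∀ x ∈ c.1 :: c.2,
    (bs.map fun c => List.formPerm (c.1 :: c.2)).prod x = List.formPerm (c.1 :: c.2) x := by
  induction bs with
  | nil => simp
  | cons d bs ih =>
    intro hnd c hc x hx
    have hw : wordOf (d :: bs) = (d.1 :: d.2) ++ wordOf bs := by simp [wordOf]
    rw [hw, List.nodup_append'] at hnd
    obtain ⟨hn1, hn2, hdis⟩ := hnd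
    rw [List.map_cons, List.prod_cons, Perm.mul_apply]
    rcases List.mem_cons.1 hc with rfl | hc
    · -- x is in the first block, the others fix it
      have : ∀ (cs : List (Fin n × List (Fin n))), x ∉ wordOf cs →
          (cs.map fun c => List.formPerm (c.1 :: c.2)).prod x = x := by
        intro cs
        induction cs with
        | nil => simp
        | cons e cs ihc =>
          intro hxc
          have hw' : wordOf (e :: cs) = (e.1 :: e.2) ++ wordOf cs := by simp [wordOf]
          rw [hw', List.mem_append, not_or] at hxc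
          rw [List.map_cons, List.prod_cons, Perm.mul_apply, ihc hxc.2,
            List.formPerm_apply_of_notMem hxc.1]
      rw [this bs (fun h => hdis hx h)]
    · rw [ih hn2 c hc x hx]
      apply List.formPerm_apply_of_notMem
      intro hmem
      have h1 : List.formPerm (c.1 :: c.2) x ∈ c.1 :: c.2 :=
        List.formPerm_apply_mem_of_mem hx
      have h2 : List.formPerm (c.1 :: c.2) x ∈ wordOf bs := by
        rw [wordOf, List.mem_flatMap]
        exact ⟨c, hc, h1⟩
      exact hdis hmem h2

/-- The structure used in the proof: blocks and positions. -/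
lemma struct {σ π : Perm (Fin n)} (h : IsTheta σ π) :
    ∃ bs : List (Fin n × List (Fin n)),
      (∀ c ∈ bs, (c.1 :: c.2).Pairwise (fun x y => π.symm x < π.symm y)) ∧
      (∀ c ∈ bs, ∀ x ∈ c.2, x < c.1) ∧
      (∀ x, ∃ c ∈ bs, x ∈ c.1 :: c.2) ∧
      (∀ c ∈ bs, ∀ x ∈ c.1 :: c.2, σ x = List.formPerm (c.1 :: c.2) x) ∧
      (∀ c ∈ bs, ∀ d ∈ bs, c = d ∨
        ((∀ x ∈ c.1 :: c.2, ∀ y ∈ d.1 :: d.2, π.symm x < π.symm y) ∧ c.1 < d.1) ∨
        ((∀ x ∈ d.1 :: d.2, ∀ y ∈ c.1 :: c.2, π.symm x < π.symm y) ∧ d.1 < c.1)) := by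
  obtain ⟨bs, ⟨p1, p2, p3, p4, p5⟩, hw⟩ := h
  have hpw : (wordOf bs).Pairwise (fun x y => π.symm x < π.symm y) := by
    rw [hw, List.pairwise_ofFn]
    intro i j hij
    simpa using hij
  rw [wordOf, List.pairwise_flatMap] at hpw
  refine ⟨bs, hpw.1, p4, ?_, ?_, ?_⟩
  · intro x
    have := p2 x
    rw [wordOf, List.mem_flatMap] at this
    exact this
  · intro c hc x hx
    rw [p3]
    exact prod_apply bs p1 c hc x hx
  · have hboth := hpw.2.and p5
    intro c hc d hd
    let R := fun c d : Fin n × List (Fin n) => c = d ∨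
        ((∀ x ∈ c.1 :: c.2, ∀ y ∈ d.1 :: d.2, π.symm x < π.symm y) ∧ c.1 < d.1) ∨
        ((∀ x ∈ d.1 :: d.2, ∀ y ∈ c.1 :: c.2, π.symm x < π.symm y) ∧ d.1 < c.1)
    have : Std.Symm R := ⟨by
      intro a b hab
      rcases hab with h | h | h
      · exact Or.inl h.symm
      · exact Or.inr (Or.inr h)
      · exact Or.inr (Or.inl h)⟩
    exact List.Pairwise.forall_of_forall (R := R) (fun x _ => Or.inl rfl)
      (hboth.imp (fun h => Or.inr (Or.inl h))) hc hd

/-- an arrow occurrence gives 321 or 3142 -/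
lemma arrow_imp {π : Perm (Fin n)} (h : HasArrow π) : Has321 π ∨ Has3142 π := by
  obtain ⟨σ, hσ, x₁, x₂, x₃, h12, h23, hpos, hs⟩ := h
  obtain ⟨bs, q1, q2, q3, q4, q5⟩ := struct hσ
  obtain ⟨c, hc, hx1⟩ := q3 x₁
  obtain ⟨d, hd, hx2⟩ := q3 x₂
  have hs' := q4 c hc x₁ hx1
  rw [hs] at hs'
  have hP := q1 c hc
  have hnd : (c.1 :: c.2).Nodup := hP.imp (fun h e => by rw [e] at h; exact lt_irrefl _ h)
  rw [List.pairwise_iff_getElem] at hP
  obtain ⟨i, hi, hix⟩ := List.mem_iff_getElem.1 hx1
  by_cases hlast : i + 1 < (c.1 :: c.2).length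
  · -- the image is the next entry
    left
    have h3 : x₃ = (c.1 :: c.2)[i + 1] := by
      rw [hs', ← hix]
      exact List.formPerm_apply_lt_getElem _ hnd i hlast
    have h3mem : x₃ ∈ c.2 := by
      rw [h3]
      simp
    have h3M : x₃ < c.1 := q2 c hc _ h3mem
    have hM3 : π.symm c.1 < π.symm x₃ := (List.pairwise_cons.1 (q1 c hc)).1 _ h3mem
    have h32 : π.symm x₃ < π.symm x₂ := by
      rcases q5 c hc d hd with e | ⟨e, _⟩ | ⟨e, _⟩
      · subst e
        obtain ⟨j, hj, hjx⟩ := List.mem_iff_getElem.1 hx2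
        have hij : i < j := by
          by_contra hcon
          rcases lt_or_eq_of_le (not_lt.1 hcon) with h' | h'
          · have := hP j i hj hi h'
            rw [hix, hjx] at this
            exact absurd this (not_lt.2 hpos.le)
          · subst h'
            rw [hix] at hjx
            exact h12.ne hjx
        have hne : i + 1 ≠ j := by
          rintro rfl
          rw [hjx] at h3
          exact h23.ne' h3
        have := hP (i + 1) j hlast hj (by omega)
        rw [← h3, hjx] at this
        exact this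
      · exact e _ (by simp [h3mem]) _ hx2
      · exact absurd (e _ hx2 _ hx1) (not_lt.2 hpos.le)
    exact ⟨π.symm c.1, π.symm x₃, π.symm x₂, hM3, h32, by simpa using h23, by simpa using h3M⟩
  · right
    have hil : i = c.2.length := by
      simp only [List.length_cons] at hi hlast
      omega
    have h3 : x₃ = c.1 := by
      rw [hs', ← hix]
      subst hil
      exact List.formPerm_apply_getElem_length _ _
    have hcd : (∀ x ∈ c.1 :: c.2, ∀ y ∈ d.1 :: d.2, π.symm x < π.symm y) ∧ c.1 < d.1 := by
      rcases q5 c hc d hd with e | e | ⟨e, _⟩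
      · exfalso
        subst e
        obtain ⟨j, hj, hjx⟩ := List.mem_iff_getElem.1 hx2
        have hji : j ≤ i := by
          simp only [List.length_cons] at hj
          omega
        rcases lt_or_eq_of_le hji with h' | h'
        · have := hP j i hj hi h'
          rw [hix, hjx] at this
          exact absurd this (not_lt.2 hpos.le)
        · subst h'
          rw [hix] at hjx
          exact h12.ne hjx
      · exact e
      · exact absurd (e _ hx2 _ hx1) (not_lt.2 hpos.le)
    have hx1c : x₁ ∈ c.2 := by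
      rcases List.mem_cons.1 hx1 with e | e
      · exfalso
        rw [h3, ← e] at h23
        exact absurd (h12.trans h23) (lt_irrefl _)
      · exact e
    have hx2d : x₂ ∈ d.2 := by
      rcases List.mem_cons.1 hx2 with e | e
      · exfalso
        rw [h3, e] at h23
        exact absurd (h23.trans hcd.2) (lt_irrefl _)
      · exact e
    refine ⟨π.symm c.1, π.symm x₁, π.symm d.1, π.symm x₂,
      (List.pairwise_cons.1 (q1 c hc)).1 _ hx1c, hcd.1 _ hx1 _ (by simp),
      (List.pairwise_cons.1 (q1 d hd)).1 _ hx2d, by simpa using h12, ?_, ?_⟩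
    · simpa [h3] using h23
    · simpa using hcd.2

/-- for a 321-avoider, an occurrence of 3142 gives an arrow occurrence -/
lemma arrow_of {π : Perm (Fin n)} (h1 : ¬ Has321 π) (h : Has3142 π) : HasArrow π := by
  obtain ⟨i, j, k, l, hij, hjk, hkl, e1, e2, e3⟩ := h
  obtain ⟨σ, hσ⟩ := exists_theta π
  obtain ⟨bs, q1, q2, q3, q4, q5⟩ := struct hσ
  obtain ⟨c, hc, hac⟩ := q3 (π j)
  obtain ⟨c0, hc0, hM0⟩ := q3 (π i)
  obtain ⟨d, hd, hM'⟩ := q3 (π k)
  obtain ⟨e, he, hv⟩ := q3 (π l)
  -- the head of the block of `π j` dominates `π i`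
  have hle : π i ≤ c.1 := by
    rcases q5 c0 hc0 c hc with h' | ⟨_, h'⟩ | ⟨h', _⟩
    · subst h'
      rcases List.mem_cons.1 hM0 with h'' | h''
      · exact h''.le
      · exact (q2 _ hc _ h'').le
    · refine le_trans ?_ h'.le
      rcases List.mem_cons.1 hM0 with h'' | h''
      · exact h''.le
      · exact (q2 _ hc0 _ h'').le
    · have := h' _ hac _ hM0
      simp only [Equiv.symm_apply_apply] at this
      exact absurd this (not_lt.2 hij.le)
  have hac2 : π j ∈ c.2 := by
    rcases List.mem_cons.1 hac with h' | h'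
    · exfalso
      rw [← h'] at hle
      exact absurd (lt_of_lt_of_le (e1.trans e2) hle) (lt_irrefl _)
    · exact h'
  have hMj : π.symm c.1 < j := by
    have := (List.pairwise_cons.1 (q1 c hc)).1 _ hac2
    simpa using this
  have hcd : (∀ x ∈ c.1 :: c.2, ∀ y ∈ d.1 :: d.2, π.symm x < π.symm y) := by
    rcases q5 c hc d hd with h' | ⟨h', _⟩ | ⟨h', _⟩
    · exfalso
      subst h'
      rcases List.mem_cons.1 hM' with h'' | h''
      · have : π.symm c.1 = k := by rw [← h'']; simp
        rw [this] at hMj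
        exact absurd hMj (not_lt.2 hjk.le)
      · have h5 := q2 _ hc _ h''
        exact h1 ⟨π.symm c.1, k, l, hMj.trans hjk, hkl, e2.trans e3, by simpa using h5⟩
    · exact h'
    · exfalso
      have := h' _ hM' _ hac
      simp only [Equiv.symm_apply_apply] at this
      exact absurd this (not_lt.2 hjk.le)
  have hce : (∀ x ∈ c.1 :: c.2, ∀ y ∈ e.1 :: e.2, π.symm x < π.symm y) := by
    rcases q5 c hc e he with h' | ⟨h', _⟩ | ⟨h', _⟩
    · exfalso
      subst h'
      have := hcd _ hv _ hM'
      simp only [Equiv.symm_apply_apply] at this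
      exact absurd this (not_lt.2 hkl.le)
    · exact h'
    · exfalso
      have := h' _ hv _ hac
      simp only [Equiv.symm_apply_apply] at this
      exact absurd this (not_lt.2 (hjk.trans hkl).le)
  -- the last entry of the block
  have hP := q1 c hc
  have hnd : (c.1 :: c.2).Nodup := hP.imp (fun h e => by rw [e] at h; exact lt_irrefl _ h)
  set x₁ := (c.1 :: c.2)[c.2.length] with hx1def
  have hx1mem : x₁ ∈ c.1 :: c.2 := List.getElem_mem _
  have hx1c : x₁ ∈ c.2 := by
    rcases hcc : c.2 with _ | ⟨y, t⟩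
    · rw [hcc] at hac2
      simp at hac2
    · rw [hx1def]
      simp [hcc]
  have hx1M : x₁ < c.1 := q2 c hc _ hx1c
  have hσx : σ x₁ = c.1 := by
    rw [q4 c hc x₁ hx1mem]
    exact List.formPerm_apply_getElem_length _ _
  have hpos : π.symm x₁ < l := by
    have := hce _ hx1mem _ hv
    simpa using this
  have hMx : π.symm c.1 < π.symm x₁ := (List.pairwise_cons.1 hP).1 _ hx1c
  have hlt : x₁ < π l := by
    rcases lt_trichotomy x₁ (π l) with h' | h' | h'
    · exact h'
    · rw [h'] at hpos
      simp at hpos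
    · exact absurd ⟨π.symm c.1, π.symm x₁, l, hMx, hpos, by simpa using h',
        by simpa using hx1M⟩ h1
  exact ⟨σ, hσ, x₁, π l, c.1, hlt, lt_of_lt_of_le e2 hle, by simpa using hpos, hσx⟩

theorem good_iff (π : Perm (Fin n)) : (¬ Has321 π ∧ ¬ HasArrow π) ↔ Good π := by
  constructor
  · rintro ⟨h1, h2⟩
    exact ⟨h1, fun h => h2 (arrow_of h1 h)⟩
  · rintro ⟨h1, h2⟩
    refine ⟨h1, fun h => ?_⟩
    rcases arrow_imp h with h' | h'
    · exact h1 h'
    · exact h2 h'

end Pool.Agent.R804.Arrow
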