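import Mathlib

/-! Counting permutations avoiding the classical patterns 321 and 3142. -/

namespace Pool.Agent.R804.Arrow

open Equiv

/-- Classical containment of `321`. -/
def Has321 {n : ℕ} (π : Perm (Fin n)) : Prop :=
  ∃ i j k : Fin n, i < j ∧ j < k ∧ π k < π j ∧ π j < π i

/-- Classical containment of `3142`. -/
def Has3142 {n : ℕ} (π : Perm (Fin n)) : Prop :=
  ∃ i j k l : Fin n, i < j ∧ j < k ∧ k < l ∧ π j < π l ∧ π l < π i ∧ π i < π k

def Good {n : ℕ} (π : Perm (Fin n)) : Prop := ¬ Has321 π ∧ ¬ Has3142 π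

/-- insert the point `(q, v)` -/
def ins {n : ℕ} (q v : Fin (n + 1)) (π : Perm (Fin n)) : Perm (Fin (n + 1)) :=
  (finSuccEquiv' q).trans ((Equiv.optionCongr π).trans (finSuccEquiv' v).symm)

lemma ins_at {n : ℕ} (q v : Fin (n + 1)) (π : Perm (Fin n)) : ins q v π q = v := by
  simp [ins]

lemma ins_succAbove {n : ℕ} (q v : Fin (n + 1)) (π : Perm (Fin n)) (i : Fin n) :
    ins q v π (q.succAbove i) = v.succAbove (π i) := by
  simp [ins]

lemma exists_ins {n : ℕ} (q v : Fin (n + 1)) (π : Perm (Fin (n + 1))) (h : π q = v) :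
    ∃ π' : Perm (Fin n), ins q v π' = π := by
  set e : Perm (Option (Fin n)) :=
    (finSuccEquiv' q).symm.trans (π.trans (finSuccEquiv' v)) with he
  have h0 : e none = none := by simp [he, h]
  refine ⟨Equiv.removeNone e, ?_⟩
  ext i
  rcases Fin.eq_self_or_eq_succAbove q i with rfl | ⟨j, rfl⟩
  · rw [ins_at, h]
  · rw [ins_succAbove]
    have h1 : some (Equiv.removeNone e j) = e (some j) := by
      rcases Option.ne_none_iff_exists'.1
        (show e (some j) ≠ none from fun hh => by
          have := e.injective (hh.trans h0.symm); simp at this) with ⟨x, hx⟩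
      exact Equiv.removeNone_some e ⟨x, hx⟩
    have h2 : e (some j) = finSuccEquiv' v (π (q.succAbove j)) := by simp [he]
    have h3 : finSuccEquiv' v (v.succAbove (Equiv.removeNone e j))
        = finSuccEquiv' v (π (q.succAbove j)) := by
      rw [finSuccEquiv'_succAbove, h1, h2]
    rw [(finSuccEquiv' v).injective h3]

lemma ins_injective {n : ℕ} (q v : Fin (n + 1)) :
    Function.Injective (ins q v) := by
  intro a b hab
  ext i
  have := congrArg (fun f : Perm (Fin (n + 1)) => f (q.succAbove i)) hab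
  simp only [ins_succAbove] at this
  rw [Fin.succAbove_right_injective this]

lemma good_of_ins {n : ℕ} {q v : Fin (n + 1)} {π : Perm (Fin n)} (h : Good (ins q v π)) :
    Good π := by
  refine ⟨fun ⟨i, j, k, h1, h2, h3, h4⟩ => h.1
    ⟨q.succAbove i, q.succAbove j, q.succAbove k, ?_, ?_, ?_, ?_⟩,
    fun ⟨i, j, k, l, h1, h2, h3, h4, h5, h6⟩ => h.2
    ⟨q.succAbove i, q.succAbove j, q.succAbove k, q.succAbove l, ?_, ?_, ?_, ?_, ?_, ?_⟩⟩ <;>
  simpa only [ins_succAbove, Fin.succAbove_lt_succAbove_iff]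

/-- appending the largest value -/
lemma good_app_last {n : ℕ} {π : Perm (Fin n)} (h : Good π) :
    Good (ins (Fin.last n) (Fin.last n) π) := by
  constructor
  · rintro ⟨i, j, k, h1, h2, h3, h4⟩
    rcases Fin.eq_self_or_eq_succAbove (Fin.last n) k with rfl | ⟨k, rfl⟩
    · rw [ins_at] at h3
      exact absurd h3 (not_lt.2 (Fin.le_last _))
    rcases Fin.eq_self_or_eq_succAbove (Fin.last n) j with rfl | ⟨j, rfl⟩
    · exact absurd h2 (not_lt.2 (Fin.le_last _))
    rcases Fin.eq_self_or_eq_succAbove (Fin.last n) i with rfl | ⟨i, rfl⟩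
    · exact absurd h1 (not_lt.2 (Fin.le_last _))
    simp only [ins_succAbove, Fin.succAbove_lt_succAbove_iff] at h1 h2 h3 h4
    exact h.1 ⟨i, j, k, h1, h2, h3, h4⟩
  · rintro ⟨i, j, k, l, h1, h2, h3, h4, h5, h6⟩
    rcases Fin.eq_self_or_eq_succAbove (Fin.last n) l with rfl | ⟨l, rfl⟩
    · rw [ins_at] at h5
      exact absurd h5 (not_lt.2 (Fin.le_last _))
    rcases Fin.eq_self_or_eq_succAbove (Fin.last n) k with rfl | ⟨k, rfl⟩
    · exact absurd h3 (not_lt.2 (Fin.le_last _))
    rcases Fin.eq_self_or_eq_succAbove (Fin.last n) j with rfl | ⟨j, rfl⟩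
    · exact absurd h2 (not_lt.2 (Fin.le_last _))
    rcases Fin.eq_self_or_eq_succAbove (Fin.last n) i with rfl | ⟨i, rfl⟩
    · exact absurd h1 (not_lt.2 (Fin.le_last _))
    simp only [ins_succAbove, Fin.succAbove_lt_succAbove_iff] at h1 h2 h3 h4 h5 h6
    exact h.2 ⟨i, j, k, l, h1, h2, h3, h4, h5, h6⟩

/-- appending the second largest value -/
lemma good_app_sub {n : ℕ} {π : Perm (Fin (n + 1))} (h : Good π) :
    Good (ins (Fin.last (n + 1)) (Fin.last n).castSucc π) := by
  constructor
  · rintro ⟨i, j, k, h1, h2, h3, h4⟩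
    rcases Fin.eq_self_or_eq_succAbove (Fin.last (n + 1)) k with rfl | ⟨k, rfl⟩
    · rw [ins_at] at h3
      have a1 := Fin.lt_def.1 h3
      have a2 := Fin.lt_def.1 h4
      have a3 := Fin.is_le ((ins (Fin.last (n + 1)) (Fin.last n).castSucc π) i)
      simp only [Fin.val_castSucc, Fin.val_last] at a1 a2 a3
      omega
    rcases Fin.eq_self_or_eq_succAbove (Fin.last (n + 1)) j with rfl | ⟨j, rfl⟩
    · exact absurd h2 (not_lt.2 (Fin.le_last _))
    rcases Fin.eq_self_or_eq_succAbove (Fin.last (n + 1)) i with rfl | ⟨i, rfl⟩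
    · exact absurd h1 (not_lt.2 (Fin.le_last _))
    simp only [ins_succAbove, Fin.succAbove_lt_succAbove_iff] at h1 h2 h3 h4
    exact h.1 ⟨i, j, k, h1, h2, h3, h4⟩
  · rintro ⟨i, j, k, l, h1, h2, h3, h4, h5, h6⟩
    rcases Fin.eq_self_or_eq_succAbove (Fin.last (n + 1)) l with rfl | ⟨l, rfl⟩
    · rw [ins_at] at h5
      have a1 := Fin.lt_def.1 h5
      have a2 := Fin.lt_def.1 h6
      have a3 := Fin.is_le ((ins (Fin.last (n + 1)) (Fin.last n).castSucc π) k)
      simp only [Fin.val_castSucc, Fin.val_last] at a1 a2 a3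
      omega
    rcases Fin.eq_self_or_eq_succAbove (Fin.last (n + 1)) k with rfl | ⟨k, rfl⟩
    · exact absurd h3 (not_lt.2 (Fin.le_last _))
    rcases Fin.eq_self_or_eq_succAbove (Fin.last (n + 1)) j with rfl | ⟨j, rfl⟩
    · exact absurd h2 (not_lt.2 (Fin.le_last _))
    rcases Fin.eq_self_or_eq_succAbove (Fin.last (n + 1)) i with rfl | ⟨i, rfl⟩
    · exact absurd h1 (not_lt.2 (Fin.le_last _))
    simp only [ins_succAbove, Fin.succAbove_lt_succAbove_iff] at h1 h2 h3 h4 h5 h6
    exact h.2 ⟨i, j, k, l, h1, h2, h3, h4, h5, h6⟩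

/-- doubling the largest value: insert the new maximum right after the old one -/
lemma good_dup {n : ℕ} {π : Perm (Fin (n + 1))} (h : Good π) (p : Fin (n + 1))
    (hp : π p = Fin.last n) :
    Good (ins p.succ (Fin.last (n + 1)) π) := by
  have hlast : ∀ i, π i ≤ π p := fun i => by rw [hp]; exact Fin.le_last _
  have hle : ∀ i, p.succ.succAbove i < p.succ → i ≤ p := by
    intro i hi
    by_contra hc
    rw [not_le] at hc
    have : p.succ.succAbove i = i.succ := Fin.succAbove_of_le_castSucc _ _
      (by rw [Fin.le_def]; simp only [Fin.val_succ, Fin.val_castSucc]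
          exact Nat.succ_le_of_lt hc)
    rw [this] at hi
    exact absurd (Fin.succ_lt_succ_iff.1 hi) (not_lt.2 hc.le)
  have hgt : ∀ i, p.succ < p.succ.succAbove i → p < i := by
    intro i hi
    by_contra hc
    rw [not_lt] at hc
    have : p.succ.succAbove i = i.castSucc := Fin.succAbove_of_castSucc_lt _ _
      (by rw [Fin.lt_def]; simp only [Fin.val_succ, Fin.val_castSucc]
          exact Nat.lt_succ_of_le hc)
    rw [this] at hi
    have := Fin.lt_def.1 hi
    simp only [Fin.val_succ, Fin.val_castSucc] at this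
    have h2 := Fin.le_def.1 hc
    omega
  constructor
  · rintro ⟨i, j, k, h1, h2, h3, h4⟩
    rcases Fin.eq_self_or_eq_succAbove p.succ k with rfl | ⟨k, rfl⟩
    · rw [ins_at] at h3
      exact absurd h3 (not_lt.2 (Fin.le_last _))
    rcases Fin.eq_self_or_eq_succAbove p.succ j with rfl | ⟨j, rfl⟩
    · rw [ins_at] at h4
      exact absurd h4 (not_lt.2 (Fin.le_last _))
    rcases Fin.eq_self_or_eq_succAbove p.succ i with rfl | ⟨i, rfl⟩
    · simp only [ins_succAbove, Fin.succAbove_lt_succAbove_iff] at h2 h3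
      have h5 := hgt j h1
      exact h.1 ⟨p, j, k, h5, h2, h3,
        lt_of_le_of_ne (hlast j) (fun e => h5.ne' (π.injective e))⟩
    simp only [ins_succAbove, Fin.succAbove_lt_succAbove_iff] at h1 h2 h3 h4
    exact h.1 ⟨i, j, k, h1, h2, h3, h4⟩
  · rintro ⟨i, j, k, l, h1, h2, h3, h4, h5, h6⟩
    rcases Fin.eq_self_or_eq_succAbove p.succ l with rfl | ⟨l, rfl⟩
    · rw [ins_at] at h5
      exact absurd h5 (not_lt.2 (Fin.le_last _))
    rcases Fin.eq_self_or_eq_succAbove p.succ j with rfl | ⟨j, rfl⟩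
    · rw [ins_at] at h4
      exact absurd h4 (not_lt.2 (Fin.le_last _))
    rcases Fin.eq_self_or_eq_succAbove p.succ i with rfl | ⟨i, rfl⟩
    · rw [ins_at] at h6
      exact absurd h6 (not_lt.2 (Fin.le_last _))
    rcases Fin.eq_self_or_eq_succAbove p.succ k with rfl | ⟨k, rfl⟩
    · simp only [ins_succAbove, Fin.succAbove_lt_succAbove_iff] at h1 h4 h5
      have h7 := hle j h2
      have h8 := hgt l h3
      have h9 : j < p := lt_of_le_of_ne h7 (by
        rintro rfl
        exact absurd h4 (not_lt.2 (hlast l)))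
      exact h.2 ⟨i, j, p, l, h1, h9, h8, h4, h5,
        lt_of_le_of_ne (hlast i) (fun e => (h1.trans h9).ne (π.injective e))⟩
    simp only [ins_succAbove, Fin.succAbove_lt_succAbove_iff] at h1 h2 h3 h4 h5 h6
    exact h.2 ⟨i, j, k, l, h1, h2, h3, h4, h5, h6⟩

open Classical in
/-- the finset of good permutations -/
noncomputable def G (n : ℕ) : Finset (Perm (Fin n)) := Finset.univ.filter Good

lemma mem_G {n : ℕ} {π : Perm (Fin n)} : π ∈ G n ↔ Good π := by simp [G]

open Classical in
lemma card_app_last (n : ℕ) :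
    ((G (n + 1)).filter fun π => π (Fin.last n) = Fin.last n).card = (G n).card := by
  symm
  apply Finset.card_nbij (ins (Fin.last n) (Fin.last n))
  · intro π hπ
    simp only [Finset.mem_coe, Finset.mem_filter, mem_G] at hπ ⊢
    exact ⟨good_app_last hπ, ins_at _ _ _⟩
  · exact (ins_injective _ _).injOn
  · intro π hπ
    simp only [Finset.mem_coe, Finset.mem_filter, mem_G] at hπ
    obtain ⟨π', rfl⟩ := exists_ins _ _ π hπ.2
    exact ⟨π', by simpa [mem_G] using good_of_ins hπ.1, rfl⟩

open Classical in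
lemma card_app_sub (n : ℕ) :
    ((G (n + 2)).filter fun π => π (Fin.last (n + 1)) = (Fin.last n).castSucc).card
      = (G (n + 1)).card := by
  symm
  apply Finset.card_nbij (ins (Fin.last (n + 1)) (Fin.last n).castSucc)
  · intro π hπ
    simp only [Finset.mem_coe, Finset.mem_filter, mem_G] at hπ ⊢
    exact ⟨good_app_sub hπ, ins_at _ _ _⟩
  · exact (ins_injective _ _).injOn
  · intro π hπ
    simp only [Finset.mem_coe, Finset.mem_filter, mem_G] at hπ
    obtain ⟨π', rfl⟩ := exists_ins _ _ π hπ.2
    exact ⟨π', by simpa [mem_G] using good_of_ins hπ.1, rfl⟩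

lemma dup_struct {n : ℕ} {π : Perm (Fin (n + 2))} (h : Good π)
    (h1 : π (Fin.last (n + 1)) ≠ Fin.last (n + 1))
    (h2 : π (Fin.last (n + 1)) ≠ (Fin.last n).castSucc) :
    ∃ π' : Perm (Fin (n + 1)), π' (Fin.last n) ≠ Fin.last n ∧
      ins (π'.symm (Fin.last n)).succ (Fin.last (n + 1)) π' = π := by
  set L := Fin.last (n + 1) with hL
  set q := π.symm L with hq
  set r := π.symm (Fin.last n).castSucc with hr
  have eq : π q = L := by simp [hq]
  have er : π r = (Fin.last n).castSucc := by simp [hr]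
  have hqL : q < L := lt_of_le_of_ne (Fin.le_last _) (fun e => h1 (by rw [← e, eq, e]))
  have hrL : r < L := lt_of_le_of_ne (Fin.le_last _) (fun e => h2 (by rw [← e, er]))
  have hvL : (π L).val < n := by
    have a0 := Fin.is_le (π L)
    have a1 : (π L).val ≠ n + 1 := fun e => h1 (Fin.ext (by rw [e, hL]; rfl))
    have a2 : (π L).val ≠ n := fun e => h2 (Fin.ext (by rw [e]; rfl))
    omega
  have hrv : (π r).val = n := by rw [er]; simp
  have hqv : (π q).val = n + 1 := by rw [eq, hL]; simp
  have hrq : r < q := by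
    rcases lt_trichotomy r q with h' | h' | h'
    · exact h'
    · rw [h'] at hrv; omega
    · exact absurd ⟨q, r, L, h', hrL, Fin.lt_def.2 (by omega), Fin.lt_def.2 (by omega)⟩ h.1
  have hadj : q.val = r.val + 1 := by
    by_contra hc
    have hlt := Fin.lt_def.1 hrq
    have hm : r.val + 1 < n + 2 := by have := q.isLt; omega
    set m : Fin (n + 2) := ⟨r.val + 1, hm⟩ with hmdef
    have hrm : r < m := Fin.lt_def.2 (by simp [hmdef])
    have hmq : m < q := Fin.lt_def.2 (by simp only [hmdef]; omega)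
    have hmv : (π m).val < n := by
      have a0 := Fin.is_le (π m)
      have a1 : (π m).val ≠ n + 1 := fun e => hmq.ne (π.injective (Fin.ext (by omega)))
      have a2 : (π m).val ≠ n := fun e => hrm.ne' (π.injective (Fin.ext (by omega)))
      omega
    rcases lt_trichotomy (π m) (π L) with h' | h' | h'
    · exact h.2 ⟨r, m, q, L, hrm, hmq, hqL, h', Fin.lt_def.2 (by omega), Fin.lt_def.2 (by omega)⟩
    · exact (hmq.trans hqL).ne (π.injective h')
    · exact h.1 ⟨r, m, L, hrm, hmq.trans hqL, h', Fin.lt_def.2 (by omega)⟩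
  obtain ⟨π', hπ'⟩ := exists_ins q L π eq
  refine ⟨π', ?_, ?_⟩
  · intro e
    have h3 : q.succAbove (Fin.last n) = L := by
      rw [Fin.succAbove_of_le_castSucc]
      · rfl
      · rw [Fin.le_def]
        have := Fin.lt_def.1 hqL
        simp only [hL, Fin.val_last, Fin.val_castSucc] at this ⊢
        omega
    have h4 := ins_succAbove q L π' (Fin.last n)
    rw [hπ', h3, e, hL, Fin.succAbove_last] at h4
    exact h2 h4
  · rcases Fin.eq_self_or_eq_succAbove q r with e | ⟨p, hp⟩
    · exact absurd e hrq.ne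
    · have h4 := ins_succAbove q L π' p
      rw [hπ', ← hp, er, hL, Fin.succAbove_last] at h4
      have h5 : π' p = Fin.last n := (Fin.castSucc_injective _ h4).symm
      have h6 : π'.symm (Fin.last n) = p := by rw [← h5]; simp
      have h7 : r = p.castSucc := by
        rw [hp]
        apply Fin.succAbove_of_castSucc_lt
        by_contra hc
        rw [not_lt] at hc
        rw [Fin.succAbove_of_le_castSucc _ _ hc] at hp
        rw [hp] at hrq
        have a1 := Fin.lt_def.1 hrq
        have a2 := Fin.le_def.1 hc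
        simp only [Fin.val_succ, Fin.val_castSucc] at a1 a2
        omega
      have h8 : p.succ = q := by
        apply Fin.ext
        rw [hadj, h7]; simp
      rw [h6, h8, hπ']

open Classical in
lemma card_dup (n : ℕ) :
    ((G (n + 2)).filter fun π => π (Fin.last (n + 1)) ≠ Fin.last (n + 1) ∧
        π (Fin.last (n + 1)) ≠ (Fin.last n).castSucc).card
      = ((G (n + 1)).filter fun π => π (Fin.last n) ≠ Fin.last n).card := by
  symm
  apply Finset.card_nbij (fun π : Perm (Fin (n + 1)) =>
    ins (π.symm (Fin.last n)).succ (Fin.last (n + 1)) π)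
  · intro π hπ
    simp only [Finset.mem_coe, Finset.mem_filter, mem_G] at hπ ⊢
    refine ⟨good_dup hπ.1 _ (by simp), ?_⟩
    set p := π.symm (Fin.last n) with hp
    have hpp : π p = Fin.last n := by simp [hp]
    have hpL : p < Fin.last n := lt_of_le_of_ne (Fin.le_last _) (fun e => hπ.2 (by
      rw [e] at hpp; exact hpp))
    have h3 : p.succ.succAbove (Fin.last n) = Fin.last (n + 1) := by
      rw [Fin.succAbove_of_le_castSucc]
      · rfl
      · rw [Fin.le_def]
        have := Fin.lt_def.1 hpL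
        simp only [Fin.val_last, Fin.val_succ, Fin.val_castSucc] at this ⊢
        omega
    have h4 := ins_succAbove p.succ (Fin.last (n + 1)) π (Fin.last n)
    rw [h3, Fin.succAbove_last] at h4
    rw [h4]
    constructor
    · intro e
      have := congrArg Fin.val e
      simp only [Fin.val_castSucc, Fin.val_last] at this
      have := (π (Fin.last n)).isLt
      omega
    · intro e
      exact hπ.2 (Fin.castSucc_injective _ e)
  · intro a ha b hb hab
    simp only at hab
    have h1 : (a.symm (Fin.last n)).succ = (b.symm (Fin.last n)).succ := by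
      apply (ins (a.symm (Fin.last n)).succ (Fin.last (n + 1)) a).injective
      rw [ins_at, hab, ins_at]
    rw [h1] at hab
    exact ins_injective _ _ hab
  · intro π hπ
    simp only [Finset.mem_coe, Finset.mem_filter, mem_G] at hπ
    obtain ⟨π', h1, h2⟩ := dup_struct hπ.1 hπ.2.1 hπ.2.2
    refine ⟨π', ?_, h2⟩
    simp only [Finset.mem_coe, Finset.mem_filter, mem_G]
    exact ⟨good_of_ins (h2 ▸ hπ.1), h1⟩

lemma rec_G (n : ℕ) : (G (n + 2)).card + (G n).card = 3 * (G (n + 1)).card := by
  classical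
  have h1 := Finset.card_filter_add_card_filter_not (s := G (n + 2))
    (fun π => π (Fin.last (n + 1)) = Fin.last (n + 1))
  have h2 := Finset.card_filter_add_card_filter_not
    (s := (G (n + 2)).filter (fun π => ¬ π (Fin.last (n + 1)) = Fin.last (n + 1)))
    (fun π => π (Fin.last (n + 1)) = (Fin.last n).castSucc)
  have h3 := Finset.card_filter_add_card_filter_not (s := G (n + 1))
    (fun π => π (Fin.last n) = Fin.last n)
  rw [card_app_last] at h1 h3
  rw [Finset.filter_filter, Finset.filter_filter] at h2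
  have h4 := card_app_sub n
  have h5 := card_dup n
  have h6 : ((G (n + 2)).filter fun π => ¬ π (Fin.last (n + 1)) = Fin.last (n + 1) ∧
      π (Fin.last (n + 1)) = (Fin.last n).castSucc)
      = ((G (n + 2)).filter fun π => π (Fin.last (n + 1)) = (Fin.last n).castSucc) := by
    apply Finset.filter_congr
    intro π _
    constructor
    · exact fun h => h.2
    · intro h
      refine ⟨?_, h⟩
      rw [h]
      intro e
      have := congrArg Fin.val e
      simp only [Fin.val_castSucc, Fin.val_last] at this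
      omega
  rw [h6, h4] at h2
  simp only [ne_eq] at h5 h2 h3 h1
  rw [h5] at h2
  omega

lemma card_G0 : (G 0).card = 1 := by
  have : G 0 = Finset.univ := by
    ext π
    simp only [mem_G, Finset.mem_univ, iff_true]
    exact ⟨fun ⟨i, _⟩ => i.elim0, fun ⟨i, _⟩ => i.elim0⟩
  rw [this]
  simp

lemma card_G1 : (G 1).card = 1 := by
  have : G 1 = Finset.univ := by
    ext π
    simp only [mem_G, Finset.mem_univ, iff_true]
    refine ⟨fun ⟨i, j, k, h, _⟩ => ?_, fun ⟨i, j, k, l, h, _⟩ => ?_⟩ <;>
    exact absurd h (by rw [Subsingleton.elim i j]; exact lt_irrefl _)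
  rw [this]
  simp

theorem card_G (n : ℕ) : (G (n + 1)).card = Nat.fib (2 * n + 1) ∧
    (G (n + 2)).card = Nat.fib (2 * n + 3) := by
  induction n with
  | zero =>
    refine ⟨by rw [card_G1]; rfl, ?_⟩
    have := rec_G 0
    rw [card_G0, card_G1] at this
    have h3 : Nat.fib (2 * 0 + 3) = 2 := rfl
    omega
  | succ n ih =>
    refine ⟨by simpa [Nat.mul_add] using ih.2, ?_⟩
    have h := rec_G (n + 1)
    have e1 : Nat.fib (2 * (n + 1) + 3) = Nat.fib (2 * n + 3) + Nat.fib (2 * n + 4) := by
      rw [show 2 * (n + 1) + 3 = (2 * n + 3) + 2 by ring, Nat.fib_add_two]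
    have e2 : Nat.fib (2 * n + 4) = Nat.fib (2 * n + 2) + Nat.fib (2 * n + 3) := by
      rw [show 2 * n + 4 = (2 * n + 2) + 2 by ring, Nat.fib_add_two]
    have e3 : Nat.fib (2 * n + 3) = Nat.fib (2 * n + 1) + Nat.fib (2 * n + 2) := by
      rw [show 2 * n + 3 = (2 * n + 1) + 2 by ring, Nat.fib_add_two]
    have i1 := ih.1
    have i2 := ih.2
    rw [show n + 1 + 1 = n + 2 by ring, show n + 1 + 2 = n + 3 by ring] at *
    omega

end Pool.Agent.R804.Arrow
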